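import Pool.Agent.H74.LI.Targets
import Pool.Agent.H61.GLH.Inst
import Pool.Agent.H23.GLH.GammaStrip

/-!
# (PB) polynomial bound in right half planes (MP_9f0eeb_nt).  helper33
-/

set_option autoImplicit false

open Complex MeasureTheory Set

namespace Pool.Agent.H33.LI

open Pool.Agent.H23.GLH Pool.Agent.H74.LI Pool.Agent.H61.GLH

theorem gamma_bound (n : ℕ) : ∃ K : ℝ, 0 < K ∧ ∀ x y : ℝ, 1 / 2 ≤ x → x ≤ 3 / 2 + n →
    ‖Gamma (x + y * I)‖ ≤ K * (1 + |y|) ^ (n + 1) * Real.exp (-(Real.pi * |y| / 2)) := by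
  induction n with
  | zero =>
    refine ⟨4 * Real.sqrt (2 * Real.pi) * Real.exp (9 / 4), by positivity, ?_⟩
    intro x y h1 h2
    have h2' : x ≤ 3 / 2 := by simpa using h2
    refine (norm_Gamma_strip x y h1 h2').trans ?_
    have hy : 1 ≤ 1 + |y| := by have := abs_nonneg y; linarith
    have h3 : (1 + |y|) ^ (x - 1 / 2) ≤ (1 + |y|) ^ (0 + 1) := by
      rw [zero_add, pow_one]
      calc (1 + |y|) ^ (x - 1 / 2) ≤ (1 + |y|) ^ (1 : ℝ) :=
            Real.rpow_le_rpow_of_exponent_le hy (by linarith)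
        _ = 1 + |y| := Real.rpow_one _
    gcongr
  | succ n ih =>
    obtain ⟨K, hK, hb⟩ := ih
    refine ⟨(n + 2) * K, by positivity, ?_⟩
    intro x y h1 h2
    have hy0 := abs_nonneg y
    have hy : 1 ≤ 1 + |y| := by linarith
    have hn0 : (0 : ℝ) ≤ n := Nat.cast_nonneg _
    rcases le_or_gt x (3 / 2 + n) with h | h
    · refine (hb x y h1 h).trans ?_
      have h4 : (1 + |y|) ^ (n + 1) ≤ (1 + |y|) ^ (n + 1 + 1) :=
        pow_le_pow_right₀ hy (Nat.le_succ _)
      have h5 : K ≤ (n + 2) * K := by nlinarith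
      gcongr
    · push_cast at h2
      have hre : 1 / 2 ≤ x - 1 := by linarith
      have e : (x + y * I : ℂ) = ((x - 1 : ℝ) + y * I) + 1 := by push_cast; ring
      have hne : ((x - 1 : ℝ) + y * I : ℂ) ≠ 0 := by
        intro h0
        have := congrArg Complex.re h0
        simp at this
        linarith
      rw [e, Gamma_add_one _ hne, norm_mul]
      have h6 := hb (x - 1) y hre (by linarith)
      have h7 : ‖((x - 1 : ℝ) + y * I : ℂ)‖ ≤ (n + 2) * (1 + |y|) := by
        calc ‖((x - 1 : ℝ) + y * I : ℂ)‖ ≤ ‖((x - 1 : ℝ) : ℂ)‖ + ‖(y * I : ℂ)‖ := norm_add_le _ _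
          _ = (x - 1) + |y| := by
              rw [norm_real, norm_mul, norm_real, norm_I, mul_one, Real.norm_eq_abs,
                Real.norm_eq_abs, abs_of_pos (by linarith)]
          _ ≤ (n + 2) * (1 + |y|) := by nlinarith
      calc ‖((x - 1 : ℝ) + y * I : ℂ)‖ * ‖Gamma ((x - 1 : ℝ) + y * I)‖
          ≤ ((n + 2) * (1 + |y|)) *
            (K * (1 + |y|) ^ (n + 1) * Real.exp (-(Real.pi * |y| / 2))) := by gcongr
        _ = _ := by ring

theorem right_bound (π : PrimChar) : ∃ C : ℝ, 0 < C ∧ ∀ w : ℂ, 1 / 4 ≤ w.re → 1 ≤ |w.im| →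
    ‖π.L w‖ ≤ C * (1 + |w.im|) ^ 2 := by
  have hA := AΓ_pos
  have hZ := Z32_nonneg
  have hC := π.one_le_C
  refine ⟨(AΓ + Z32 + 256) * π.C ^ 2, by positivity, ?_⟩
  intro w h1 h2
  have hy : 1 ≤ 1 + |w.im| := by linarith
  rcases le_or_gt w.re 3 with h | h
  · have h3 := (good π).bd w h1 h (Or.inr h2)
    rw [Real.rpow_two] at h3
    calc ‖π.L w‖ ≤ _ := h3
      _ = _ := by ring
  · have h3 := L_far π (s := w) (by linarith)
    have h4 : 1 ≤ π.C ^ 2 := one_le_pow₀ hC
    have h5 : 1 ≤ (1 + |w.im|) ^ 2 := one_le_pow₀ hy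
    calc ‖π.L w‖ ≤ Z32 := h3
      _ ≤ (AΓ + Z32 + 256) * 1 * 1 := by linarith
      _ ≤ _ := by gcongr

theorem bar_bar (π : PrimChar) : bar (bar π) = π := by
  obtain ⟨q, hq, χ, hp⟩ := π
  simp only [bar, PrimChar.mk.injEq, heq_eq_eq, true_and]
  exact inv_inv χ

theorem pb (h : T_LF) : T_poly := by
  intro π A
  obtain ⟨C1, hC1, hb1⟩ := right_bound π
  obtain ⟨C2, hC2, hb2⟩ := right_bound (bar π)
  set n : ℕ := ⌈|A|⌉₊ with hn
  obtain ⟨K, hK, hbK⟩ := gamma_bound n
  obtain ⟨ε, κ, hε, hκ, hLF⟩ := h (bar π)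
  have hq1 : (1 : ℝ) ≤ π.q := π.one_le_q
  have hlogq : 0 ≤ Real.log π.q := Real.log_nonneg hq1
  set Q : ℝ := Real.exp ((|A| + 1) * Real.log π.q) with hQ
  have hQ0 : 0 < Q := Real.exp_pos _
  set C3 : ℝ := C2 * (2 * K) * Q with hC3
  have hC30 : 0 < C3 := by positivity
  set C : ℝ := C1 + C3 + (n + 3) with hCdef
  have hn0 : (0 : ℝ) ≤ n := Nat.cast_nonneg _
  refine ⟨C, by positivity, ?_⟩
  intro w hw1 hw2
  set y : ℝ := |w.im| with hy
  have hy1 : 1 ≤ 1 + y := by linarith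
  have hfinal : ∀ (D : ℝ) (m : ℕ), 0 ≤ D → D ≤ C → (m : ℝ) ≤ C → ‖π.L w‖ ≤ D * (1 + y) ^ m →
      ‖π.L w‖ ≤ C * (1 + y) ^ C := by
    intro D m hD0 hDC hmC hb
    refine hb.trans ?_
    have h1 : (1 + y) ^ m ≤ (1 + y) ^ C := by
      rw [← Real.rpow_natCast]
      exact Real.rpow_le_rpow_of_exponent_le hy1 hmC
    have h2 : 0 ≤ (1 + y) ^ m := by positivity
    exact mul_le_mul hDC h1 h2 (hD0.trans hDC)
  rcases le_or_gt (1 / 4) w.re with hre | hre
  · refine hfinal C1 2 hC1.le (by rw [hCdef]; linarith) ?_ (hb1 w hre hw2)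
    rw [hCdef]
    push_cast
    linarith
  · refine hfinal C3 (n + 3) hC30.le (by rw [hCdef]; linarith) ?_ ?_
    · rw [hCdef]
      push_cast
      linarith
    · set v : ℂ := 1 - w with hv
      have hvre : v.re = 1 - w.re := by simp [hv]
      have hvim : v.im = -w.im := by simp [hv]
      have hvy : |v.im| = y := by rw [hvim, abs_neg]
      have hv1 : 1 / 2 ≤ v.re := by rw [hvre]; linarith
      have hAn : |A| ≤ n := Nat.le_ceil _
      have hA := le_abs_self A
      have hv2 : v.re ≤ 1 + |A| := by rw [hvre]; linarith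
      have hvim0 : v.im ≠ 0 := by
        intro h0
        rw [h0, abs_zero] at hvy
        linarith
      have hfe := hLF v hvim0
      rw [bar_bar] at hfe
      have e1 : 1 - v = w := by rw [hv]; ring
      rw [e1] at hfe
      have hbq : (bar π).q = π.q := rfl
      rw [hbq] at hfe
      -- norms
      have hnorm := congrArg norm hfe
      rw [norm_mul, norm_mul, norm_mul, norm_mul, hε, one_mul] at hnorm
      have hexpn : ‖cexp ((1 / 2 - v) * Real.log π.q)‖ =
          Real.exp ((1 / 2 - v.re) * Real.log π.q) := by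
        rw [Complex.norm_exp]
        congr 1
        rw [mul_re, ofReal_re, ofReal_im, mul_zero, sub_zero]
        simp
      rw [hexpn] at hnorm
      have hexpl : Q⁻¹ ≤ Real.exp ((1 / 2 - v.re) * Real.log π.q) := by
        rw [hQ, ← Real.exp_neg]
        apply Real.exp_le_exp.mpr
        have : -(|A| + 1) ≤ 1 / 2 - v.re := by linarith
        nlinarith
      have hcos : ‖Complex.cos (Real.pi * (v - κ) / 2)‖ ≤ Real.exp (Real.pi * y / 2) := by
        refine (norm_cos_le _).trans (le_of_eq ?_)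
        congr 1
        have : (Real.pi * (v - κ) / 2 : ℂ).im = Real.pi * v.im / 2 := by
          have e : (Real.pi * (v - κ) / 2 : ℂ) = ((Real.pi / 2 : ℝ) : ℂ) * (v - κ) := by
            push_cast; ring
          rw [e, im_ofReal_mul]
          simp
          ring
        rw [this, abs_div, abs_mul, abs_of_pos Real.pi_pos, hvy]
        norm_num
      have hGC : ‖Gammaℂ v‖ ≤ 2 * (K * (1 + y) ^ (n + 1) * Real.exp (-(Real.pi * y / 2))) := by
        rw [Gammaℂ_def, norm_mul, norm_mul]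
        have h2pi : (2 * (Real.pi : ℂ)) = ((2 * Real.pi : ℝ) : ℂ) := by push_cast; rfl
        have e2 : ‖(2 * (Real.pi : ℂ)) ^ (-v)‖ ≤ 1 := by
          rw [h2pi, norm_cpow_eq_rpow_re_of_pos (by positivity)]
          apply Real.rpow_le_one_of_one_le_of_nonpos
          · have := Real.pi_gt_three; linarith
          · simp only [neg_re]; linarith
        have e3 : ‖Gamma v‖ ≤ K * (1 + y) ^ (n + 1) * Real.exp (-(Real.pi * y / 2)) := by
          have := hbK v.re v.im hv1 (by linarith)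
          rw [re_add_im, hvy] at this
          exact this
        have e4 : ‖(2 : ℂ)‖ = 2 := by simp
        rw [e4]
        have h0 := norm_nonneg (Gamma v)
        calc 2 * ‖(2 * (Real.pi : ℂ)) ^ (-v)‖ * ‖Gamma v‖ ≤ 2 * 1 * ‖Gamma v‖ := by gcongr
          _ ≤ _ := by rw [mul_one]; gcongr
      have hLv : ‖(bar π).L v‖ ≤ C2 * (1 + y) ^ 2 := by
        have := hb2 v (by linarith) (by rw [hvy]; exact hw2)
        rwa [hvy] at this
      have h0 := norm_nonneg (π.L w)
      have hmain : Q⁻¹ * ‖π.L w‖ ≤ C2 * (2 * K) * (1 + y) ^ (n + 3) := by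
        calc Q⁻¹ * ‖π.L w‖ ≤ Real.exp ((1 / 2 - v.re) * Real.log π.q) * ‖π.L w‖ := by gcongr
          _ = ‖(bar π).L v‖ * (‖Gammaℂ v‖ * ‖Complex.cos (Real.pi * (v - κ) / 2)‖) := hnorm.symm
          _ ≤ (C2 * (1 + y) ^ 2) *
              ((2 * (K * (1 + y) ^ (n + 1) * Real.exp (-(Real.pi * y / 2)))) *
                Real.exp (Real.pi * y / 2)) := by gcongr
          _ = C2 * (2 * K) * (1 + y) ^ (n + 3) *
              (Real.exp (-(Real.pi * y / 2)) * Real.exp (Real.pi * y / 2)) := by ring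
          _ = _ := by rw [← Real.exp_add, neg_add_cancel, Real.exp_zero, mul_one]
      rw [inv_mul_le_iff₀ hQ0] at hmain
      rw [hC3]
      calc ‖π.L w‖ ≤ _ := hmain
        _ = _ := by ring

end Pool.Agent.H33.LI
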